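import Mathlib

/-!
# Ore extensions and the right strong rank condition: definitions
-/

namespace Q12.Ore

universe u v

/-- The right strong rank condition: no homomorphism of right `A`-modules
`A ^ (n + 1) → A ^ n` with `n ≥ 1` is injective.  A right `A`-module is a module over the
opposite ring `Aᵐᵒᵖ`; the module `Fin n → A` carries the right multiplication in every
coordinate. -/
def RSRC (A : Type u) [Ring A] : Prop :=
  ∀ n : ℕ, 1 ≤ n → ∀ f : (Fin (n + 1) → A) →ₗ[Aᵐᵒᵖ] (Fin n → A), ¬ Function.Injective f

/-- `δ` is a `σ`-derivation: `δ (r s) = δ (r) s + σ (r) δ (s)`. -/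
def IsSkewDerivation {R : Type u} [Ring R] (σ : R →+* R) (δ : R →+ R) : Prop :=
  ∀ r s : R, δ (r * s) = δ r * s + σ r * δ s

/-- The ring `A`, with the ring homomorphism `ι : R → A` and the element `x`, is the Ore extension
`R[x; σ, δ]`: every element of `A` is a polynomial `∑ ι (r_i) x ^ i` with uniquely determined
coefficients `r_i ∈ R` (written on the left), and `x r = σ (r) x + δ (r)` for `r ∈ R`. -/
structure IsOreExtension {R : Type u} {A : Type v} [Ring R] [Ring A] (σ : R →+* R) (δ : R →+ R)
    (ι : R →+* A) (x : A) : Prop where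
  basis : Function.Bijective fun p : ℕ →₀ R => p.sum fun i r => ι r * x ^ i
  commute : ∀ r : R, x * ι r = ι (σ r) * x + ι (δ r)

end Q12.Ore
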