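import Mathlib
import Pool.Agent.Q12.Ore.Defs

/-!
# The right strong rank condition for Ore extensions with surjective twist
-/

namespace Q12.Ore

universe u v

open Function

section Ext

variable {R : Type u} {A : Type v} [Ring R] [Ring A] {σ : R →+* R} {δ : R →+ R}
  {ι : R →+* A} {x : A}

/-- elements of degree at most `k`, written with right coefficients -/
def RDeg (ι : R →+* A) (x : A) (k : ℕ) (a : A) : Prop :=
  ∃ c : ℕ → R, a = ∑ i ∈ Finset.range (k + 1), x ^ i * ι (c i)

/-- elements of degree at most `k`, written with left coefficients -/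
def LDeg (ι : R →+* A) (x : A) (k : ℕ) (a : A) : Prop :=
  ∃ c : ℕ → R, a = ∑ i ∈ Finset.range (k + 1), ι (c i) * x ^ i

theorem LDeg.add {k : ℕ} {a b : A} (ha : LDeg ι x k a) (hb : LDeg ι x k b) :
    LDeg ι x k (a + b) := by
  obtain ⟨c, rfl⟩ := ha
  obtain ⟨d, rfl⟩ := hb
  refine ⟨fun i => c i + d i, ?_⟩
  rw [← Finset.sum_add_distrib]
  refine Finset.sum_congr rfl fun i _ => ?_
  rw [map_add, add_mul]

theorem LDeg.zero {k : ℕ} : LDeg ι x k 0 := ⟨fun _ => 0, by simp⟩

theorem LDeg.sum {k : ℕ} {α : Type*} (s : Finset α) (f : α → A) (h : ∀ i ∈ s, LDeg ι x k (f i)) :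
    LDeg ι x k (∑ i ∈ s, f i) := by
  classical
  induction s using Finset.induction_on with
  | empty => simpa using LDeg.zero
  | insert a s ha ih =>
    rw [Finset.sum_insert ha]
    exact (h a (by simp)).add (ih fun i hi => h i (by simp [hi]))

theorem LDeg.mono {k l : ℕ} (hkl : k ≤ l) {a : A} (ha : LDeg ι x k a) : LDeg ι x l a := by
  classical
  obtain ⟨c, rfl⟩ := ha
  refine ⟨fun i => if i < k + 1 then c i else 0, ?_⟩
  rw [← Finset.sum_subset (Finset.range_mono (Nat.succ_le_succ hkl))]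
  · refine Finset.sum_congr rfl fun i hi => ?_
    have hi' : i < k + 1 := Finset.mem_range.1 hi
    simp only [hi', if_true]
  · intro i _ hi
    have hi' : ¬ i < k + 1 := fun h => hi (Finset.mem_range.2 h)
    simp only [hi', if_false, map_zero, zero_mul]

theorem LDeg.monomial {k i : ℕ} (hi : i ≤ k) (r : R) : LDeg ι x k (ι r * x ^ i) := by
  classical
  refine ⟨fun j => if j = i then r else 0, ?_⟩
  rw [Finset.sum_eq_single i]
  · simp
  · intro j _ hj
    simp [hj]
  · intro h
    exact absurd (Finset.mem_range.2 (by omega)) h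

theorem LDeg.left_mul {k : ℕ} {a : A} (ha : LDeg ι x k a) (r : R) : LDeg ι x k (ι r * a) := by
  obtain ⟨c, rfl⟩ := ha
  refine ⟨fun i => r * c i, ?_⟩
  rw [Finset.mul_sum]
  refine Finset.sum_congr rfl fun i _ => ?_
  rw [map_mul, mul_assoc]

theorem LDeg.x_mul (hc : ∀ r : R, x * ι r = ι (σ r) * x + ι (δ r)) {k : ℕ} {a : A}
    (ha : LDeg ι x k a) : LDeg ι x (k + 1) (x * a) := by
  obtain ⟨c, rfl⟩ := ha
  rw [Finset.mul_sum]
  refine LDeg.sum _ _ fun i hi => ?_
  rw [← mul_assoc, hc, add_mul, mul_assoc, ← pow_succ']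
  have hi' := Finset.mem_range.1 hi
  exact (LDeg.monomial (by omega) _).add (LDeg.monomial (by omega) _)

theorem LDeg.pow_mul (hc : ∀ r : R, x * ι r = ι (σ r) * x + ι (δ r)) {k : ℕ} (j : ℕ) {a : A}
    (ha : LDeg ι x k a) : LDeg ι x (k + j) (x ^ j * a) := by
  induction j with
  | zero => simpa using ha
  | succ j ih =>
    rw [pow_succ', mul_assoc]
    exact LDeg.x_mul hc ih

theorem LDeg.mul (hc : ∀ r : R, x * ι r = ι (σ r) * x + ι (δ r)) {k l : ℕ} {a b : A}
    (ha : LDeg ι x k a) (hb : LDeg ι x l b) : LDeg ι x (l + k) (a * b) := by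
  obtain ⟨c, rfl⟩ := ha
  rw [Finset.sum_mul]
  refine LDeg.sum _ _ fun i hi => ?_
  rw [mul_assoc]
  have hi' := Finset.mem_range.1 hi
  exact ((LDeg.pow_mul hc i hb).mono (by omega)).left_mul _

theorem LDeg.mul_right (hc : ∀ r : R, x * ι r = ι (σ r) * x + ι (δ r)) {k : ℕ} {a : A}
    (ha : LDeg ι x k a) (r : R) : LDeg ι x k (a * ι r) := by
  have h0 : LDeg ι x 0 (ι r) := ⟨fun _ => r, by simp⟩
  simpa using LDeg.mul hc ha h0

/-- with surjective `σ` a left polynomial of degree at most `k` is a right polynomial -/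
theorem LDeg.right (hσ : Surjective σ) (hc : ∀ r : R, x * ι r = ι (σ r) * x + ι (δ r)) :
    ∀ (k : ℕ) {a : A}, LDeg ι x k a → RDeg ι x k a := by
  -- `x ^ k * ι r` is `ι (σ^k r) * x ^ k` plus lower terms
  have key : ∀ (k : ℕ) (r : R), ∃ b : A, (k = 0 → b = 0) ∧ (∀ j, k = j + 1 → LDeg ι x j b) ∧
      x ^ k * ι r = ι ((σ^[k]) r) * x ^ k + b := by
    intro k
    induction k with
    | zero => intro r; exact ⟨0, fun _ => rfl, fun j hj => by omega, by simp⟩
    | succ k ih =>
      intro r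
      obtain ⟨b, hb0, hb1, hb⟩ := ih r
      refine ⟨ι (δ ((σ^[k]) r)) * x ^ k + x * b, fun h => by omega, ?_, ?_⟩
      · intro j hj
        have hj' : j = k := by omega
        subst hj'
        refine (LDeg.monomial le_rfl _).add ?_
        rcases Nat.eq_zero_or_pos j with h | h
        · rw [hb0 h, mul_zero]; exact LDeg.zero
        · obtain ⟨m, rfl⟩ : ∃ m, j = m + 1 := ⟨j - 1, by omega⟩
          exact LDeg.x_mul hc (hb1 m rfl)
      · rw [pow_succ', mul_assoc, hb, mul_add, ← mul_assoc, hc, add_mul, mul_assoc,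
          iterate_succ_apply', ← add_assoc]
  have hs : ∀ k : ℕ, Surjective (σ^[k]) := fun k => hσ.iterate k
  intro k
  induction k with
  | zero =>
    rintro a ⟨c, rfl⟩
    exact ⟨c, by simp⟩
  | succ k ih =>
    rintro a ⟨c, rfl⟩
    obtain ⟨r, hr⟩ := hs (k + 1) (c (k + 1))
    obtain ⟨b, -, hb1, hb⟩ := key (k + 1) r
    have h1 : ι (c (k + 1)) * x ^ (k + 1) = x ^ (k + 1) * ι r - b := by
      rw [hb, hr]; abel
    have hbn : LDeg ι x k (-b) := by
      have := (hb1 k rfl).left_mul (-1)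
      simpa using this
    have h2 : LDeg ι x k ((∑ i ∈ Finset.range (k + 1), ι (c i) * x ^ i) + -b) :=
      LDeg.add ⟨c, rfl⟩ hbn
    obtain ⟨e, he⟩ := ih h2
    classical
    refine ⟨fun i => if i < k + 1 then e i else r, ?_⟩
    rw [Finset.sum_range_succ, Finset.sum_range_succ (n := k + 1)]
    have h3 : ∑ i ∈ Finset.range (k + 1), x ^ i * ι (if i < k + 1 then e i else r) =
        ∑ i ∈ Finset.range (k + 1), x ^ i * ι (e i) :=
      Finset.sum_congr rfl fun i hi => by
        have hi' : i < k + 1 := Finset.mem_range.1 hi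
        simp only [hi', if_true]
    rw [h3, ← he, h1]
    simp only [lt_irrefl, if_false]
    abel

theorem exists_LDeg (h : IsOreExtension σ δ ι x) (a : A) : ∃ k, LDeg ι x k a := by
  classical
  obtain ⟨p, hp⟩ := h.basis.2 a
  refine ⟨p.support.sup id, ?_⟩
  rw [← hp]
  refine LDeg.sum _ _ fun i hi => ?_
  exact LDeg.monomial (Finset.le_sup (f := id) hi) _

theorem ι_injective (h : IsOreExtension σ δ ι x) : Injective ι := by
  intro r s hrs
  have h1 : (fun p : ℕ →₀ R => p.sum fun i r => ι r * x ^ i) (Finsupp.single 0 r) =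
      (fun p : ℕ →₀ R => p.sum fun i r => ι r * x ^ i) (Finsupp.single 0 s) := by
    simp [hrs]
  have h2 := h.basis.1 h1
  have h3 := DFunLike.congr_fun h2 0
  simpa using h3

end Ext

end Q12.Ore
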