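import Mathlib
import Pool.Agent.Q12.Ore.Main

/-!
# Existence of Ore extensions
-/

namespace Q12.Ore

universe u v

open Function

variable {R : Type u} [Ring R]

/-- the operator of multiplication by `x` on the left module with basis `t ^ i` -/
noncomputable def opX (σ : R →+* R) (δ : R →+ R) : AddMonoid.End (ℕ →₀ R) :=
  Finsupp.liftAddHom fun i =>
    (Finsupp.singleAddHom (i + 1)).comp σ.toAddMonoidHom + (Finsupp.singleAddHom i).comp δ

/-- the operators of multiplication by elements of `R` -/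
noncomputable def opL : R →+* AddMonoid.End (ℕ →₀ R) := Module.toAddMonoidEnd R (ℕ →₀ R)

theorem opX_single (σ : R →+* R) (δ : R →+ R) (i : ℕ) (s : R) :
    opX σ δ (Finsupp.single i s) = Finsupp.single (i + 1) (σ s) + Finsupp.single i (δ s) :=
  Finsupp.liftAddHom_apply_single (fun i => (Finsupp.singleAddHom (i + 1)).comp
    σ.toAddMonoidHom + (Finsupp.singleAddHom i).comp δ) i s

theorem end_mul {M : Type*} [AddCommGroup M] (f g : AddMonoid.End M) (p : M) :
    (f * g) p = f (g p) := rfl

theorem end_add {M : Type*} [AddCommGroup M] (f g : AddMonoid.End M) (p : M) :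
    (f + g) p = f p + g p := rfl

theorem end_ext {f g : AddMonoid.End (ℕ →₀ R)}
    (h : ∀ i s, f (Finsupp.single i s) = g (Finsupp.single i s)) : f = g :=
  Finsupp.addHom_ext h

theorem end_sum {M α : Type*} [AddCommGroup M] (s : Finset α) (f : α → AddMonoid.End M) (p : M) :
    (∑ i ∈ s, f i) p = ∑ i ∈ s, f i p := by
  classical
  induction s using Finset.induction_on with
  | empty => simp
  | insert a s ha ih => rw [Finset.sum_insert ha, Finset.sum_insert ha, end_add, ih]

theorem opL_apply (r : R) (p : ℕ →₀ R) : opL r p = r • p := rfl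

theorem op_comm {σ : R →+* R} {δ : R →+ R} (h : IsSkewDerivation σ δ) (r : R) :
    opX σ δ * opL r = opL (σ r) * opX σ δ + opL (δ r) := by
  refine end_ext fun i s => ?_
  rw [end_mul, end_add, end_mul, opL_apply,
    opL_apply, opL_apply, Finsupp.smul_single, opX_single, opX_single, smul_add,
    Finsupp.smul_single, Finsupp.smul_single, Finsupp.smul_single, smul_eq_mul, smul_eq_mul,
    smul_eq_mul, smul_eq_mul, map_mul, h r s, Finsupp.single_add]
  abel

theorem opX_pow_one (σ : R →+* R) {δ : R →+ R} (h : IsSkewDerivation σ δ) (i : ℕ) :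
    ((opX σ δ) ^ i) (Finsupp.single 0 1) = Finsupp.single i 1 := by
  have h1 : δ 1 = 0 := by
    have h2 := h 1 1
    rw [mul_one, mul_one, σ.map_one, one_mul] at h2
    simpa using h2
  induction i with
  | zero => simp
  | succ i ih =>
    rw [pow_succ', end_mul, ih, opX_single, map_one, h1, Finsupp.single_zero,
      add_zero]

theorem LDeg.neg {A : Type v} [Ring A] {ι : R →+* A} {x : A} {k : ℕ} {a : A}
    (ha : LDeg ι x k a) : LDeg ι x k (-a) := by
  obtain ⟨c, rfl⟩ := ha
  refine ⟨fun i => -c i, ?_⟩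
  rw [← Finset.sum_neg_distrib]
  refine Finset.sum_congr rfl fun i _ => ?_
  rw [map_neg, neg_mul]

/-- the subring of all operators `∑ r_i x ^ i` -/
noncomputable def oreSubring {σ : R →+* R} {δ : R →+ R} (h : IsSkewDerivation σ δ) :
    Subring (AddMonoid.End (ℕ →₀ R)) where
  carrier := {a | ∃ k, LDeg opL (opX σ δ) k a}
  mul_mem' := by
    rintro a b ⟨k, hk⟩ ⟨l, hl⟩
    exact ⟨_, LDeg.mul (op_comm h) hk hl⟩
  one_mem' := ⟨0, fun _ => 1, by simp⟩
  add_mem' := by
    rintro a b ⟨k, hk⟩ ⟨l, hl⟩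
    exact ⟨max k l, (hk.mono (le_max_left _ _)).add (hl.mono (le_max_right _ _))⟩
  zero_mem' := ⟨0, LDeg.zero⟩
  neg_mem' := by
    rintro a ⟨k, hk⟩
    exact ⟨k, LDeg.neg hk⟩

/-- For every ring `R`, every endomorphism `σ` and every `σ`-derivation `δ` the Ore extension
`R[x; σ, δ]` exists. -/
theorem exists_oreExtension (σ : R →+* R) (δ : R →+ R) (h : IsSkewDerivation σ δ) :
    ∃ (A : Type u) (_ : Ring A) (ι : R →+* A) (x : A), IsOreExtension σ δ ι x := by
  classical
  let A := oreSubring h
  have hL : ∀ r : R, opL r ∈ A := fun r => ⟨0, fun _ => r, by simp⟩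
  have hX : opX σ δ ∈ A :=
    ⟨1, fun i => if i = 1 then 1 else 0, by simp⟩
  let ι : R →+* A := opL.codRestrict A hL
  let x : A := ⟨opX σ δ, hX⟩
  have hval : ∀ p : ℕ →₀ R, ((p.sum fun i r => ι r * x ^ i : A) : AddMonoid.End (ℕ →₀ R)) =
      p.sum fun i r => opL r * (opX σ δ) ^ i := by
    intro p
    rw [Finsupp.sum, Finsupp.sum, AddSubmonoidClass.coe_finsetSum]
    rfl
  refine ⟨A, inferInstance, ι, x, ⟨?_, ?_⟩, ?_⟩
  · intro p q hpq
    have h1 : (p.sum fun i r => opL r * (opX σ δ) ^ i : AddMonoid.End (ℕ →₀ R)) =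
        q.sum fun i r => opL r * (opX σ δ) ^ i := by
      rw [← hval, ← hval]
      exact congrArg Subtype.val hpq
    have h2 : ∀ p : ℕ →₀ R, (p.sum fun i r => opL r * (opX σ δ) ^ i : AddMonoid.End (ℕ →₀ R))
        (Finsupp.single 0 1) = p := by
      intro p
      rw [Finsupp.sum, end_sum]
      conv_rhs => rw [← Finsupp.sum_single p]
      rw [Finsupp.sum]
      refine Finset.sum_congr rfl fun i _ => ?_
      rw [end_mul, opX_pow_one σ h, opL_apply, Finsupp.smul_single, smul_eq_mul,
        mul_one]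
    rw [← h2 p, ← h2 q, h1]
  · rintro ⟨a, k, c, hc⟩
    refine ⟨∑ i ∈ Finset.range (k + 1), Finsupp.single i (c i), ?_⟩
    apply Subtype.ext
    rw [hval]
    change _ = a
    rw [hc, ← Finsupp.sum_finsetSum_index]
    · refine Finset.sum_congr rfl fun i _ => ?_
      rw [Finsupp.sum_single_index]
      simp
    · intro i; simp
    · intro i r s; rw [map_add, add_mul]
  · intro r
    apply Subtype.ext
    exact op_comm h r

end Q12.Ore
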