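import Mathlib
import Pool.Agent.Q12.Ore.Main

/-!
# The right strong rank condition for Ore extensions with surjective twist: the proof
-/

namespace Q12.Ore

universe u v

open Function

/-- there is an injective homomorphism of right modules `A ^ I → A ^ J` -/
def HasInj (A : Type u) [Ring A] (I J : Type) : Prop :=
  ∃ f : (I → A) →ₗ[Aᵐᵒᵖ] (J → A), Injective f

section HasInj

variable {A : Type u} [Ring A] {I J K L : Type}

theorem HasInj.trans (h : HasInj A I J) (h' : HasInj A J K) : HasInj A I K := by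
  obtain ⟨f, hf⟩ := h
  obtain ⟨g, hg⟩ := h'
  exact ⟨g.comp f, hg.comp hf⟩

theorem HasInj.of_equiv (e : I ≃ J) : HasInj A I J :=
  ⟨(LinearEquiv.funCongrLeft Aᵐᵒᵖ A e.symm).toLinearMap,
    (LinearEquiv.funCongrLeft Aᵐᵒᵖ A e.symm).injective⟩

theorem HasInj.sum (h : HasInj A I J) : HasInj A (I ⊕ K) (J ⊕ K) := by
  obtain ⟨f, hf⟩ := h
  let e1 := LinearEquiv.sumArrowLequivProdArrow J K Aᵐᵒᵖ A
  let e2 := LinearEquiv.sumArrowLequivProdArrow I K Aᵐᵒᵖ A
  refine ⟨e1.symm.toLinearMap ∘ₗ (LinearMap.prodMap f LinearMap.id) ∘ₗ e2.toLinearMap, ?_⟩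
  have h1 : Injective (LinearMap.prodMap f (LinearMap.id : (K → A) →ₗ[Aᵐᵒᵖ] (K → A))) := by
    rintro ⟨a, b⟩ ⟨c, d⟩ h
    simp only [LinearMap.prodMap_apply, Prod.mk.injEq, LinearMap.id_apply] at h
    rw [hf h.1, h.2]
  exact e1.symm.injective.comp (h1.comp e2.injective)

/-- extension by zero along an injection -/
theorem HasInj.of_injective (e : I → J) (he : Injective e) : HasInj A I J := by
  classical
  refine ⟨{ toFun := fun v j => if h : ∃ i, e i = j then v h.choose else 0
            map_add' := fun v w => ?_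
            map_smul' := fun r v => ?_ }, ?_⟩
  · funext j
    by_cases h : ∃ i, e i = j
    · simp [h]
    · simp [h]
  · funext j
    by_cases h : ∃ i, e i = j
    · simp [h]
    · simp [h]
  · intro v w h
    funext i
    have h1 := congrFun h (e i)
    have h2 : ∃ i', e i' = e i := ⟨i, rfl⟩
    have h3 : h2.choose = i := he h2.choose_spec
    simp only [LinearMap.coe_mk, AddHom.coe_mk, h2, dif_pos, h3] at h1
    exact h1

theorem not_RSRC_double (h : ¬ RSRC A) : ∃ n : ℕ, 1 ≤ n ∧ HasInj A (Fin n ⊕ Fin n) (Fin n) := by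
  unfold RSRC at h
  push Not at h
  obtain ⟨n, hn, f, hf⟩ := h
  refine ⟨n, hn, ?_⟩
  have key : ∀ N : ℕ, HasInj A (Fin n ⊕ Fin N) (Fin n) := by
    intro N
    induction N with
    | zero => exact HasInj.of_equiv (Equiv.sumEmpty _ _)
    | succ N ih =>
      have e1 : Fin n ⊕ Fin (N + 1) ≃ (Fin n ⊕ Fin N) ⊕ Fin 1 :=
        (Equiv.sumCongr (Equiv.refl _) finSumFinEquiv.symm).trans (Equiv.sumAssoc _ _ _).symm
      exact (HasInj.of_equiv e1).trans
        ((ih.sum (K := Fin 1)).trans ((HasInj.of_equiv finSumFinEquiv).trans ⟨f, hf⟩))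
  exact key n

theorem RSRC.not_hasInj (h : RSRC A) [Fintype I] [Fintype J] (hJ : 1 ≤ Fintype.card J)
    (hIJ : Fintype.card J < Fintype.card I) : ¬ HasInj A I J := by
  intro hi
  have h1 : HasInj A (Fin (Fintype.card J + 1)) I := by
    refine HasInj.of_injective (fun i => (Fintype.equivFin I).symm (Fin.castLE (by omega) i)) ?_
    intro a b hab
    exact Fin.castLE_injective _ ((Fintype.equivFin I).symm.injective hab)
  obtain ⟨f, hf⟩ := h1.trans (hi.trans (HasInj.of_equiv (Fintype.equivFin J)))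
  exact h _ hJ f hf

end HasInj

section Ext

variable {R : Type u} {A : Type v} [Ring R] [Ring A] {σ : R →+* R} {δ : R →+ R}
  {ι : R →+* A} {x : A}

theorem apply_eq_sum {I J : Type} [Fintype I] [DecidableEq I] (f : (I → A) →ₗ[Aᵐᵒᵖ] (J → A))
    (v : I → A) (j : J) : f v j = ∑ i, f (Pi.single i 1) j * v i := by
  have h : v = ∑ i, MulOpposite.op (v i) • (Pi.single i (1 : A) : I → A) := by
    funext l
    rw [Finset.sum_apply, Finset.sum_eq_single l]
    · simp
    · intro b _ hb
      simp [hb.symm]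
    · simp
  conv_lhs => rw [h]
  rw [map_sum, Finset.sum_apply]
  refine Finset.sum_congr rfl fun i _ => ?_
  rw [map_smul, Pi.smul_apply, MulOpposite.smul_eq_mul_unop, MulOpposite.unop_op]

/-- the map `f` raises the degree by at most `d` -/
def DegLE (ι : R →+* A) (x : A) {I J : Type} (f : (I → A) → (J → A)) (d : ℕ) : Prop :=
  ∀ (k : ℕ) (v : I → A), (∀ i, LDeg ι x k (v i)) → ∀ j, LDeg ι x (k + d) (f v j)

theorem exists_degLE (h : IsOreExtension σ δ ι x) {I J : Type} [Fintype I] [Fintype J]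
    (f : (I → A) →ₗ[Aᵐᵒᵖ] (J → A)) : ∃ d, DegLE ι x f d := by
  classical
  have h1 : ∀ p : I × J, ∃ d, LDeg ι x d (f (Pi.single p.1 1) p.2) := fun p => exists_LDeg h _
  choose d hd using h1
  refine ⟨Finset.univ.sup d, fun k v hv j => ?_⟩
  rw [apply_eq_sum]
  refine LDeg.sum _ _ fun i _ => ?_
  exact LDeg.mul h.commute
    ((hd (i, j)).mono (Finset.le_sup (f := d) (Finset.mem_univ _))) (hv i)

/-- iterating an injection `A ^ (J ⊕ J) → A ^ J` of degree `d` -/
theorem iterate_double {J : Type} [Fintype J] (f : (J ⊕ J → A) →ₗ[Aᵐᵒᵖ] (J → A))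
    (hf : Injective f) {d : ℕ} (hd : DegLE ι x f d) (t : ℕ) :
    ∃ (K : Type) (_ : Fintype K) (g : (K → A) →ₗ[Aᵐᵒᵖ] (J → A)),
      Fintype.card K = Fintype.card J * 2 ^ t ∧ Injective g ∧ DegLE ι x g (t * d) := by
  induction t with
  | zero =>
    exact ⟨J, inferInstance, LinearMap.id, by simp, injective_id, fun k v hv j => by
      simpa using hv j⟩
  | succ t ih =>
    obtain ⟨K, _, g, hK, hg, hdg⟩ := ih
    let e1 := LinearEquiv.sumArrowLequivProdArrow J J Aᵐᵒᵖ A
    let e2 := LinearEquiv.sumArrowLequivProdArrow K K Aᵐᵒᵖ A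
    refine ⟨K ⊕ K, inferInstance, f ∘ₗ e1.symm.toLinearMap ∘ₗ
        (LinearMap.prodMap g g) ∘ₗ e2.toLinearMap, ?_, ?_, ?_⟩
    · rw [Fintype.card_sum, hK]; ring
    · have h1 : Injective (LinearMap.prodMap g g) := by
        rintro ⟨a, b⟩ ⟨c, e⟩ h
        simp only [LinearMap.prodMap_apply, Prod.mk.injEq] at h
        rw [hg h.1, hg h.2]
      exact hf.comp (e1.symm.injective.comp (h1.comp e2.injective))
    · intro k v hv j
      have h2 := hd (k + t * d) (e1.symm (LinearMap.prodMap g g (e2 v))) ?_ j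
      · have e : k + (t + 1) * d = k + t * d + d := by ring
        rw [e]
        exact h2
      · rintro (i | i)
        · exact hdg k (fun i => v (Sum.inl i)) (fun i => hv _) i
        · exact hdg k (fun i => v (Sum.inr i)) (fun i => hv _) i

/-- the Ore extension with surjective twist of a ring with RSRC has RSRC -/
theorem rsrc_ore (h : IsOreExtension σ δ ι x) (hσ : Surjective σ) (hR : RSRC R) : RSRC A := by
  classical
  by_contra hA
  obtain ⟨n, hn, f, hf⟩ := not_RSRC_double hA
  obtain ⟨d, hd⟩ := exists_degLE h f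
  -- `2 ^ t` beats `t * d + 1`
  obtain ⟨t, ht⟩ : ∃ t : ℕ, t * d + 1 < 2 ^ t := by
    refine ⟨(d + 2) * 3, ?_⟩
    have h1 : d + 3 ≤ 2 ^ (d + 2) := Nat.lt_two_pow_self
    have h2 : (d + 3) ^ 3 ≤ (2 : ℕ) ^ ((d + 2) * 3) := by
      rw [pow_mul]
      exact Nat.pow_le_pow_left h1 3
    refine lt_of_lt_of_le ?_ h2
    nlinarith [Nat.zero_le (d ^ 3), Nat.zero_le (d ^ 2)]
  obtain ⟨K, _, g, hK, hg, hdg⟩ := iterate_double f hf hd t
  rw [Fintype.card_fin] at hK
  -- matrix coefficients
  have h1 : ∀ (i : K) (j : Fin n), RDeg ι x (t * d) (g (Pi.single i 1) j) := by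
    intro i j
    refine LDeg.right hσ h.commute _ ?_
    have h2 := hdg 0 (Pi.single i 1) (fun l => ?_) j
    · simpa using h2
    · by_cases hl : l = i
      · subst hl
        exact ⟨fun _ => 1, by simp⟩
      · simpa [Pi.single_apply, hl] using LDeg.zero
  choose c hc using h1
  -- the induced map over `R`
  let G : (K → R) →ₗ[Rᵐᵒᵖ] (Fin n × Fin (t * d + 1) → R) :=
    { toFun := fun v p => ∑ i, c i p.1 p.2 * v i
      map_add' := fun v w => by
        funext p
        simp only [Pi.add_apply, mul_add, Finset.sum_add_distrib]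
      map_smul' := fun r v => by
        funext p
        simp only [Pi.smul_apply, MulOpposite.smul_eq_mul_unop, RingHom.id_apply,
          Finset.sum_mul, mul_assoc] }
  have hG : Injective G := by
    rw [injective_iff_map_eq_zero]
    intro v hv
    have h3 : g (fun i => ι (v i)) = 0 := by
      funext j
      rw [apply_eq_sum]
      have h4 : ∀ i, g (Pi.single i 1) j * ι (v i) =
          ∑ l ∈ Finset.range (t * d + 1), x ^ l * ι (c i j l * v i) := by
        intro i
        rw [hc i j, Finset.sum_mul]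
        refine Finset.sum_congr rfl fun l _ => ?_
        rw [map_mul, mul_assoc]
      rw [Finset.sum_congr rfl fun i _ => h4 i, Finset.sum_comm]
      refine Finset.sum_eq_zero fun l hl => ?_
      rw [← Finset.mul_sum, ← map_sum]
      have h5 := congrFun hv (j, ⟨l, Finset.mem_range.1 hl⟩)
      have h6 : ∑ i, c i j l * v i = 0 := h5
      rw [h6, map_zero, mul_zero]
    have h7 : (fun i => ι (v i)) = 0 := hg (by rw [h3, map_zero])
    funext i
    exact ι_injective h (by rw [Pi.zero_apply, map_zero]; exact congrFun h7 i)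
  refine hR.not_hasInj (I := K) (J := Fin n × Fin (t * d + 1)) ?_ ?_ ⟨G, hG⟩
  · rw [Fintype.card_prod, Fintype.card_fin, Fintype.card_fin]
    exact Nat.mul_pos (by omega) (by omega)
  · rw [Fintype.card_prod, Fintype.card_fin, Fintype.card_fin, hK]
    exact Nat.mul_lt_mul_of_pos_left ht (by omega)

end Ext

end Q12.Ore
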